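import Pool.Agent.Q67.VD.Defs

/-!
# The regularised Newton kernel (project VD, job POT)
-/

set_option autoImplicit false

open MeasureTheory Set Metric
open scoped ContDiff
open H459R3.NS

namespace Pool.Agent.Q153.VD

theorem smooth_pd {f : V → ℝ} (hf : ContDiff ℝ ∞ f) (j : Fin 3) : ContDiff ℝ ∞ (pd j f) := by
  have h1 : ContDiff ℝ ∞ (fderiv ℝ f) := hf.fderiv_right (m := ∞) le_rfl
  exact h1.clm_apply contDiff_const

theorem diff_of {f : V → ℝ} (hf : ContDiff ℝ ∞ f) : Differentiable ℝ f :=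
  hf.differentiable (by simp)

theorem pd_mul {f g : V → ℝ} (hf : ContDiff ℝ ∞ f) (hg : ContDiff ℝ ∞ g) (j : Fin 3) (x : V) :
    pd j (fun y => f y * g y) x = f x * pd j g x + pd j f x * g x := by
  have h1 := fderiv_fun_mul (diff_of hf x) (diff_of hg x)
  simp only [pd, h1]
  simp only [ContinuousLinearMap.add_apply, ContinuousLinearMap.smul_apply, smul_eq_mul]
  ring

theorem pd_add {f g : V → ℝ} (hf : ContDiff ℝ ∞ f) (hg : ContDiff ℝ ∞ g) (j : Fin 3) (x : V) :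
    pd j (fun y => f y + g y) x = pd j f x + pd j g x := by
  have h1 := fderiv_fun_add (diff_of hf x) (diff_of hg x)
  simp only [pd, h1]
  rfl

/-- integration by parts -/
theorem ibp_cs {F H : V → ℝ} (hF : ContDiff ℝ ∞ F) (hH : ContDiff ℝ ∞ H)
    (hs : HasCompactSupport H) (j : Fin 3) :
    ∫ x, F x * pd j H x = - ∫ x, pd j F x * H x := by
  refine integral_mul_fderiv_eq_neg_fderiv_mul_of_integrable (f := F) (g := H) (μ := volume)
    ?_ ?_ ?_ (fun x _ => diff_of hF x) (fun x _ => diff_of hH x)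
  · exact ((smooth_pd hF j).continuous.mul hH.continuous).integrable_of_hasCompactSupport
      hs.mul_left
  · exact (hF.continuous.mul (smooth_pd hH j).continuous).integrable_of_hasCompactSupport
      (hs.fderiv_apply ℝ (Pi.single j 1)).mul_left
  · exact (hF.continuous.mul hH.continuous).integrable_of_hasCompactSupport hs.mul_left

/-- squared Euclidean length -/
noncomputable def nn (z : V) : ℝ := ∑ j, z j ^ 2

theorem nn_nonneg (z : V) : 0 ≤ nn z := Finset.sum_nonneg fun j _ => sq_nonneg _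

theorem nn_ge (z : V) : ‖z‖ ^ 2 ≤ nn z := by
  have h1 : ‖z‖ ≤ √(nn z) := by
    rw [pi_norm_le_iff_of_nonneg (Real.sqrt_nonneg _)]
    intro i
    rw [Real.norm_eq_abs]
    refine Real.abs_le_sqrt ?_
    exact Finset.single_le_sum (f := fun j => z j ^ 2) (fun j _ => sq_nonneg _) (Finset.mem_univ i)
  rw [Real.le_sqrt (norm_nonneg _) (nn_nonneg z)] at h1
  exact h1

theorem nn_smul (c : ℝ) (z : V) : nn (c • z) = c ^ 2 * nn z := by
  simp only [nn, Pi.smul_apply, smul_eq_mul, mul_pow, Finset.mul_sum]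

theorem nn_smooth : ContDiff ℝ ∞ nn := by
  unfold nn
  fun_prop

theorem hasF_nn (z : V) :
    HasFDerivAt nn (∑ j : Fin 3, (2 * z j) • (ContinuousLinearMap.proj j : V →L[ℝ] ℝ)) z := by
  have h1 : ∀ j : Fin 3, HasFDerivAt (fun z : V => z j ^ 2)
      ((2 * z j) • (ContinuousLinearMap.proj j : V →L[ℝ] ℝ)) z := by
    intro j
    have h2 : HasFDerivAt (fun z : V => z j) (ContinuousLinearMap.proj j : V →L[ℝ] ℝ) z :=
      hasFDerivAt_apply j z
    have h3 := h2.pow 2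
    refine h3.congr_fderiv ?_
    ext v
    simp
  exact HasFDerivAt.fun_sum fun j _ => h1 j

theorem pd_comp_nn {φ : ℝ → ℝ} {φ' : ℝ} (z : V) (h : HasDerivAt φ φ' (nn z)) (i : Fin 3) :
    pd i (fun y => φ (nn y)) z = φ' * (2 * z i) := by
  have h1 : HasFDerivAt (fun y => φ (nn y)) (φ' •
      (∑ j : Fin 3, (2 * z j) • (ContinuousLinearMap.proj j : V →L[ℝ] ℝ))) z :=
    h.comp_hasFDerivAt z (hasF_nn z)
  rw [pd, h1.fderiv]
  simp only [ContinuousLinearMap.smul_apply, ContinuousLinearMap.sum_apply, smul_eq_mul,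
    ContinuousLinearMap.proj_apply]
  congr 1
  rw [Finset.sum_eq_single i]
  · rw [Pi.single_eq_same, mul_one]
  · intro j _ hj
    rw [Pi.single_eq_of_ne hj, mul_zero]
  · intro h
    exact absurd (Finset.mem_univ i) h

/-- regularised length -/
noncomputable def s (ε : ℝ) (z : V) : ℝ := √(nn z + ε ^ 2)

theorem s_sq (ε : ℝ) (z : V) : s ε z ^ 2 = nn z + ε ^ 2 :=
  Real.sq_sqrt (add_nonneg (nn_nonneg z) (sq_nonneg ε))

theorem s_pos {ε : ℝ} (hε : 0 < ε) (z : V) : 0 < s ε z :=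
  Real.sqrt_pos.2 (add_pos_of_nonneg_of_pos (nn_nonneg z) (by positivity))

theorem norm_le_s (ε : ℝ) (z : V) : ‖z‖ ≤ s ε z := by
  rw [s, Real.le_sqrt (norm_nonneg _) (add_nonneg (nn_nonneg z) (sq_nonneg ε))]
  have := nn_ge z
  have := sq_nonneg ε
  linarith

theorem s_smooth {ε : ℝ} (hε : 0 < ε) : ContDiff ℝ ∞ (s ε) := by
  unfold s
  refine ContDiff.sqrt (nn_smooth.add contDiff_const) fun z => ?_
  have := nn_nonneg z
  positivity

theorem P_smooth {ε : ℝ} (hε : 0 < ε) : ContDiff ℝ ∞ (fun z => (s ε z)⁻¹) :=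
  (s_smooth hε).inv fun z => (s_pos hε z).ne'

theorem hasD_P {ε : ℝ} (hε : 0 < ε) (t : ℝ) (ht : 0 ≤ t) :
    HasDerivAt (fun t => (√(t + ε ^ 2))⁻¹) (-(1 / 2) * (√(t + ε ^ 2))⁻¹ ^ 3) t := by
  have hp : 0 < t + ε ^ 2 := by positivity
  have hs : 0 < √(t + ε ^ 2) := Real.sqrt_pos.2 hp
  have h1 : HasDerivAt (fun t => t + ε ^ 2) 1 t := (hasDerivAt_id t).add_const _
  have h2 := (h1.sqrt hp.ne').fun_inv hs.ne'
  refine h2.congr_deriv ?_
  field_simp

theorem hasD_Q {ε : ℝ} (hε : 0 < ε) (t : ℝ) (ht : 0 ≤ t) :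
    HasDerivAt (fun t => (√(t + ε ^ 2))⁻¹ ^ 3) (-(3 / 2) * (√(t + ε ^ 2))⁻¹ ^ 5) t := by
  have h1 := (hasD_P hε t ht).fun_pow 3
  refine h1.congr_deriv ?_
  simp only [Nat.add_one_sub_one, Nat.cast_ofNat]
  ring

/-- the kernel `P` -/
noncomputable def P (ε : ℝ) (z : V) : ℝ := (s ε z)⁻¹

/-- the derivatives of the kernel -/
noncomputable def E (ε : ℝ) (i : Fin 3) (z : V) : ℝ := -(z i * P ε z ^ 3)

/-- minus the Laplacian of the kernel -/
noncomputable def D (ε : ℝ) (z : V) : ℝ := 3 * ε ^ 2 * P ε z ^ 5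

theorem P_pos {ε : ℝ} (hε : 0 < ε) (z : V) : 0 < P ε z := inv_pos.2 (s_pos hε z)

theorem smoothP {ε : ℝ} (hε : 0 < ε) : ContDiff ℝ ∞ (P ε) := P_smooth hε

theorem smooth_coord (i : Fin 3) : ContDiff ℝ ∞ (fun z : V => z i) := by fun_prop

theorem smoothE {ε : ℝ} (hε : 0 < ε) (i : Fin 3) : ContDiff ℝ ∞ (E ε i) :=
  ((smooth_coord i).mul ((smoothP hε).pow 3)).neg

theorem pd_P {ε : ℝ} (hε : 0 < ε) (i : Fin 3) (z : V) : pd i (P ε) z = E ε i z := by
  have h1 := pd_comp_nn z (hasD_P hε (nn z) (nn_nonneg z)) i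
  have h2 : (fun y => (√(nn y + ε ^ 2))⁻¹) = P ε := rfl
  rw [h2] at h1
  rw [h1, E]
  have h3 : (√(nn z + ε ^ 2))⁻¹ = P ε z := rfl
  rw [h3]
  ring

theorem pd_coord (i j : Fin 3) (z : V) : pd i (fun z : V => z j) z = if i = j then 1 else 0 := by
  have h2 : HasFDerivAt (fun z : V => z j) (ContinuousLinearMap.proj j : V →L[ℝ] ℝ) z :=
    hasFDerivAt_apply j z
  rw [pd, h2.fderiv]
  simp [Pi.single_apply, eq_comm]

theorem pd_neg {f : V → ℝ} (j : Fin 3) (x : V) : pd j (fun y => -f y) x = -pd j f x := by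
  rw [pd, fderiv_fun_neg]
  rfl

theorem div_E {ε : ℝ} (hε : 0 < ε) (z : V) : ∑ i, pd i (E ε i) z = -D ε z := by
  have h1 : ∀ i, pd i (E ε i) z = -P ε z ^ 3 + 3 * z i ^ 2 * P ε z ^ 5 := by
    intro i
    have h2 : pd i (fun z => P ε z ^ 3) z = -(3 / 2) * P ε z ^ 5 * (2 * z i) :=
      pd_comp_nn z (hasD_Q hε (nn z) (nn_nonneg z)) i
    have h3 : E ε i = fun z => -(z i * P ε z ^ 3) := rfl
    rw [h3, pd_neg, pd_mul (smooth_coord i) ((smoothP hε).pow 3), h2, pd_coord, if_pos rfl]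
    ring
  simp only [h1]
  rw [Finset.sum_add_distrib, Finset.sum_const, Finset.card_univ, Fintype.card_fin]
  have h4 : ∑ i, 3 * z i ^ 2 * P ε z ^ 5 = 3 * nn z * P ε z ^ 5 := by
    rw [nn, Finset.mul_sum, Finset.sum_mul]
  rw [h4, D]
  have h5 := s_sq ε z
  have h6 : P ε z ^ 3 = P ε z ^ 5 * (nn z + ε ^ 2) := by
    rw [← h5, P]
    have := (s_pos hε z).ne'
    field_simp
  simp only [nsmul_eq_mul, Nat.cast_ofNat]
  rw [mul_neg, h6]
  ring

theorem P_le {ε : ℝ} (hε : 0 < ε) (z : V) (hz : z ≠ 0) : P ε z ≤ ‖z‖⁻¹ := by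
  have h1 := norm_le_s ε z
  have h2 : 0 < ‖z‖ := norm_pos_iff.2 hz
  exact inv_anti₀ h2 h1

theorem E_le {ε : ℝ} (hε : 0 < ε) (i : Fin 3) (z : V) (hz : z ≠ 0) : |E ε i z| ≤ (‖z‖ ^ 2)⁻¹ := by
  have h2 : 0 < ‖z‖ := norm_pos_iff.2 hz
  have h1 := P_le hε z hz
  have h0 := P_pos hε z
  rw [E, abs_neg, abs_mul, abs_of_pos (pow_pos h0 3)]
  have h3 : |z i| ≤ ‖z‖ := norm_le_pi_norm z i
  calc |z i| * P ε z ^ 3 ≤ ‖z‖ * (‖z‖⁻¹) ^ 3 := by gcongr
    _ = (‖z‖ ^ 2)⁻¹ := by field_simp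

end Pool.Agent.Q153.VD
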