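import Pool.Agent.Q153.VD.Ker

/-!
# The potential estimate on the unit ball (project VD, job POT)
-/

set_option autoImplicit false

open MeasureTheory Set Metric Filter Topology
open scoped ContDiff
open H459R3.NS

namespace Pool.Agent.Q153.VD

/-- a cutoff function -/
structure Cut (χ : V → ℝ) (K : ℝ) : Prop where
  smooth : ContDiff ℝ ∞ χ
  cs : HasCompactSupport χ
  supp : ∀ z, 1 < ‖z‖ → χ z = 0
  supp1 : ∀ i z, 1 < ‖z‖ → pd i χ z = 0
  supp2 : ∀ i z, 1 < ‖z‖ → pd i (pd i χ) z = 0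
  one : ∀ z, ‖z‖ ≤ 1 / 2 → χ z = 1
  one1 : ∀ i z, ‖z‖ < 1 / 2 → pd i χ z = 0
  one2 : ∀ i z, ‖z‖ < 1 / 2 → pd i (pd i χ) z = 0
  nonneg : ∀ z, 0 ≤ χ z
  le_one : ∀ z, χ z ≤ 1
  Kpos : 0 ≤ K
  bd1 : ∀ i z, |pd i χ z| ≤ K
  bd2 : ∀ i z, |pd i (pd i χ) z| ≤ K

theorem exists_cut : ∃ χ K, Cut χ K := by
  let f : ContDiffBump (0 : V) := ⟨1 / 2, 1, by norm_num, by norm_num⟩
  have hsm : ContDiff ℝ ∞ (f : V → ℝ) := f.contDiff
  have hcs : HasCompactSupport (f : V → ℝ) := f.hasCompactSupport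
  have hcs1 : ∀ i, HasCompactSupport (pd i (f : V → ℝ)) := fun i =>
    hcs.fderiv_apply ℝ (Pi.single i 1)
  have hcs2 : ∀ i, HasCompactSupport (pd i (pd i (f : V → ℝ))) := fun i =>
    (hcs1 i).fderiv_apply ℝ (Pi.single i 1)
  have b1 : ∀ i, ∃ C, ∀ z, ‖pd i (f : V → ℝ) z‖ ≤ C := fun i =>
    (smooth_pd hsm i).continuous.bounded_above_of_compact_support (hcs1 i)
  have b2 : ∀ i, ∃ C, ∀ z, ‖pd i (pd i (f : V → ℝ)) z‖ ≤ C := fun i =>
    (smooth_pd (smooth_pd hsm i) i).continuous.bounded_above_of_compact_support (hcs2 i)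
  choose C1 hC1 using b1
  choose C2 hC2 using b2
  have hz1 : ∀ (g : V → ℝ) (z : V) (U : Set V), IsOpen U → z ∈ U → (∃ c, ∀ y ∈ U, g y = c) →
      ∀ i, pd i g z = 0 := by
    rintro g z U hU hz ⟨c, hc⟩ i
    have h1 : g =ᶠ[𝓝 z] fun _ => c := by
      filter_upwards [hU.mem_nhds hz] with y hy using hc y hy
    rw [pd, h1.fderiv_eq]
    simp
  have ho1 : IsOpen {z : V | 1 < ‖z‖} := isOpen_lt continuous_const continuous_norm
  have ho2 : IsOpen {z : V | ‖z‖ < 1 / 2} := isOpen_lt continuous_norm continuous_const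
  have s0 : ∀ z : V, 1 < ‖z‖ → f z = 0 := by
    intro z hz
    have h1 : z ∉ Function.support (f : V → ℝ) := by
      rw [f.support_eq, mem_ball, dist_zero_right]
      exact not_lt.2 hz.le
    simpa using h1
  have s1 : ∀ i (z : V), 1 < ‖z‖ → pd i (f : V → ℝ) z = 0 := fun i z hz =>
    hz1 _ z _ ho1 hz ⟨0, fun y hy => s0 y hy⟩ i
  have s2 : ∀ i (z : V), 1 < ‖z‖ → pd i (pd i (f : V → ℝ)) z = 0 := fun i z hz =>
    hz1 _ z _ ho1 hz ⟨0, fun y hy => s1 i y hy⟩ i
  have o0 : ∀ z : V, ‖z‖ ≤ 1 / 2 → f z = 1 := by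
    intro z hz
    exact f.one_of_mem_closedBall (by rw [mem_closedBall, dist_zero_right]; exact hz)
  have o1 : ∀ i (z : V), ‖z‖ < 1 / 2 → pd i (f : V → ℝ) z = 0 := fun i z hz =>
    hz1 _ z _ ho2 hz ⟨1, fun y hy => o0 y (le_of_lt hy)⟩ i
  have o2 : ∀ i (z : V), ‖z‖ < 1 / 2 → pd i (pd i (f : V → ℝ)) z = 0 := fun i z hz =>
    hz1 _ z _ ho2 hz ⟨0, fun y hy => o1 i y hy⟩ i
  have hC1' : ∀ i, 0 ≤ C1 i := fun i => (norm_nonneg _).trans (hC1 i 0)
  have hC2' : ∀ i, 0 ≤ C2 i := fun i => (norm_nonneg _).trans (hC2 i 0)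
  refine ⟨f, ∑ i, (C1 i + C2 i), hsm, hcs, s0, s1, s2, o0, o1, o2, fun z => f.nonneg,
    fun z => f.le_one, ?_, ?_, ?_⟩
  · exact Finset.sum_nonneg fun i _ => add_nonneg (hC1' i) (hC2' i)
  · intro i z
    have h1 : C1 i + C2 i ≤ ∑ i, (C1 i + C2 i) := Finset.single_le_sum
      (f := fun i => C1 i + C2 i) (fun i _ => add_nonneg (hC1' i) (hC2' i)) (Finset.mem_univ i)
    have h2 := hC1 i z
    have h3 := hC2' i
    rw [Real.norm_eq_abs] at h2
    linarith
  · intro i z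
    have h1 : C1 i + C2 i ≤ ∑ i, (C1 i + C2 i) := Finset.single_le_sum
      (f := fun i => C1 i + C2 i) (fun i _ => add_nonneg (hC1' i) (hC2' i)) (Finset.mem_univ i)
    have h2 := hC2 i z
    have h3 := hC1' i
    rw [Real.norm_eq_abs] at h2
    linarith

/-- derivative of the truncated kernel -/
noncomputable def A (χ : V → ℝ) (ε : ℝ) (i : Fin 3) (z : V) : ℝ :=
  pd i χ z * P ε z + χ z * E ε i z

/-- error terms of the Laplacian of the truncated kernel -/
noncomputable def T (χ : V → ℝ) (ε : ℝ) (i : Fin 3) (z : V) : ℝ :=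
  pd i (pd i χ) z * P ε z + 2 * (pd i χ z * E ε i z)

section

variable {χ : V → ℝ} {K : ℝ}

theorem smoothA (h : Cut χ K) {ε : ℝ} (hε : 0 < ε) (i : Fin 3) : ContDiff ℝ ∞ (A χ ε i) :=
  ((smooth_pd h.smooth i).mul (smoothP hε)).add (h.smooth.mul (smoothE hε i))

theorem smoothT (h : Cut χ K) {ε : ℝ} (hε : 0 < ε) (i : Fin 3) : ContDiff ℝ ∞ (T χ ε i) :=
  ((smooth_pd (smooth_pd h.smooth i) i).mul (smoothP hε)).add
    (contDiff_const.mul ((smooth_pd h.smooth i).mul (smoothE hε i)))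

theorem cs_of {g : V → ℝ} (hg : ∀ z, 1 < ‖z‖ → g z = 0) : HasCompactSupport g := by
  refine HasCompactSupport.intro (isCompact_closedBall (0 : V) 1) fun z hz => hg z ?_
  rw [mem_closedBall, dist_zero_right, not_le] at hz
  exact hz

theorem A_zero (h : Cut χ K) (ε : ℝ) (i : Fin 3) (z : V) (hz : 1 < ‖z‖) : A χ ε i z = 0 := by
  rw [A, h.supp1 i z hz, h.supp z hz]
  ring

theorem T_zero (h : Cut χ K) (ε : ℝ) (i : Fin 3) (z : V) (hz : 1 < ‖z‖) : T χ ε i z = 0 := by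
  rw [T, h.supp1 i z hz, h.supp2 i z hz]
  ring

theorem pd_Gam (h : Cut χ K) {ε : ℝ} (hε : 0 < ε) (i : Fin 3) (z : V) :
    pd i (fun y => χ y * P ε y) z = A χ ε i z := by
  rw [pd_mul h.smooth (smoothP hε), pd_P hε, A]
  ring

theorem sum_pd_A (h : Cut χ K) {ε : ℝ} (hε : 0 < ε) (z : V) :
    ∑ i, pd i (A χ ε i) z = ∑ i, T χ ε i z - χ z * D ε z := by
  have h1 : ∀ i, pd i (A χ ε i) z = T χ ε i z + χ z * pd i (E ε i) z := by
    intro i
    have h2 : A χ ε i = fun y => pd i χ y * P ε y + χ y * E ε i y := rfl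
    rw [h2, pd_add ((smooth_pd h.smooth i).mul (smoothP hε)) (h.smooth.mul (smoothE hε i)),
      pd_mul (smooth_pd h.smooth i) (smoothP hε), pd_mul h.smooth (smoothE hε i), pd_P hε, T]
    ring
  simp only [h1]
  rw [Finset.sum_add_distrib, ← Finset.mul_sum, div_E hε]
  ring

/-- the basic identity -/
theorem ident (h : Cut χ K) {ε : ℝ} (hε : 0 < ε) {w : V → ℝ} (hw : ContDiff ℝ ∞ w)
    {g : Fin 3 → V → ℝ} (hg : ∀ i, ContDiff ℝ ∞ (g i))
    (hlap : ∀ z, lap w z = ∑ i, pd i (g i) z) :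
    ∫ z, w z * (χ z * D ε z) =
      (∑ i, ∫ z, w z * T χ ε i z) + ∑ i, ∫ z, g i z * A χ ε i z := by
  set Γ : V → ℝ := fun y => χ y * P ε y with hΓ
  have hΓs : ContDiff ℝ ∞ Γ := h.smooth.mul (smoothP hε)
  have hΓc : HasCompactSupport Γ := h.cs.mul_right
  have hAc : ∀ i, HasCompactSupport (A χ ε i) := fun i => cs_of (A_zero h ε i)
  have hTc : ∀ i, HasCompactSupport (T χ ε i) := fun i => cs_of (T_zero h ε i)
  have hpA : ∀ i, pd i Γ = A χ ε i := fun i => funext fun z => pd_Gam h hε i z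
  have e1 : ∀ i, ∫ z, g i z * A χ ε i z = -∫ z, pd i (g i) z * Γ z := by
    intro i
    rw [← hpA i]
    exact ibp_cs (hg i) hΓs hΓc i
  have e2 : ∀ i, ∫ z, w z * pd i (A χ ε i) z = ∫ z, pd i (pd i w) z * Γ z := by
    intro i
    rw [ibp_cs hw (smoothA h hε i) (hAc i) i, ← hpA i,
      ibp_cs (smooth_pd hw i) hΓs hΓc i, neg_neg]
  have i1 : ∀ i, Integrable (fun z => pd i (g i) z * Γ z) := fun i =>
    ((smooth_pd (hg i) i).continuous.mul hΓs.continuous).integrable_of_hasCompactSupport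
      hΓc.mul_left
  have i2 : ∀ i, Integrable (fun z => pd i (pd i w) z * Γ z) := fun i =>
    ((smooth_pd (smooth_pd hw i) i).continuous.mul
      hΓs.continuous).integrable_of_hasCompactSupport hΓc.mul_left
  have i3 : ∀ i, Integrable (fun z => w z * pd i (A χ ε i) z) := fun i =>
    (hw.continuous.mul (smooth_pd (smoothA h hε i) i).continuous).integrable_of_hasCompactSupport
      ((hAc i).fderiv_apply ℝ (Pi.single i 1)).mul_left
  have i4 : ∀ i, Integrable (fun z => w z * T χ ε i z) := fun i =>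
    (hw.continuous.mul (smoothT h hε i).continuous).integrable_of_hasCompactSupport
      (hTc i).mul_left
  have e3 : ∑ i, ∫ z, w z * pd i (A χ ε i) z = -∑ i, ∫ z, g i z * A χ ε i z := by
    simp only [e1, e2]
    rw [Finset.sum_neg_distrib, neg_neg, ← integral_finset_sum _ (fun i _ => i1 i),
      ← integral_finset_sum _ (fun i _ => i2 i)]
    congr 1
    funext z
    rw [← Finset.sum_mul, ← Finset.sum_mul, ← hlap]
    rfl
  have e4 : (fun z => w z * (χ z * D ε z)) =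
      fun z => ∑ i, w z * T χ ε i z - ∑ i, w z * pd i (A χ ε i) z := by
    funext z
    rw [← Finset.mul_sum, ← Finset.mul_sum, sum_pd_A h hε]
    ring
  rw [e4, integral_sub (integrable_finset_sum _ fun i _ => i4 i)
    (integrable_finset_sum _ fun i _ => i3 i), integral_finset_sum _ (fun i _ => i4 i),
    integral_finset_sum _ (fun i _ => i3 i), e3]
  ring

theorem A_le (h : Cut χ K) {ε : ℝ} (hε : 0 < ε) (i : Fin 3) (z : V) (hz : z ≠ 0) :
    |A χ ε i z| ≤ (K + 1) * (‖z‖ ^ 2)⁻¹ := by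
  have h2 : 0 < ‖z‖ := norm_pos_iff.2 hz
  by_cases h1 : 1 < ‖z‖
  · rw [A_zero h ε i z h1, abs_zero]
    have := h.Kpos
    positivity
  · push Not at h1
    have hP := P_le hε z hz
    have hP0 := (P_pos hε z).le
    have hE := E_le hε i z hz
    have hinv : ‖z‖⁻¹ ≤ (‖z‖ ^ 2)⁻¹ := by
      apply inv_anti₀ (by positivity)
      nlinarith
    calc |A χ ε i z| ≤ |pd i χ z * P ε z| + |χ z * E ε i z| := abs_add_le _ _
      _ = |pd i χ z| * P ε z + χ z * |E ε i z| := by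
          rw [abs_mul, abs_mul, abs_of_nonneg hP0, abs_of_nonneg (h.nonneg z)]
      _ ≤ K * (‖z‖ ^ 2)⁻¹ + 1 * (‖z‖ ^ 2)⁻¹ := by
          have a1 : |pd i χ z| * P ε z ≤ K * (‖z‖ ^ 2)⁻¹ :=
            mul_le_mul (h.bd1 i z) (hP.trans hinv) hP0 h.Kpos
          have a2 : χ z * |E ε i z| ≤ 1 * (‖z‖ ^ 2)⁻¹ :=
            mul_le_mul (h.le_one z) hE (abs_nonneg _) zero_le_one
          linarith
      _ = (K + 1) * (‖z‖ ^ 2)⁻¹ := by ring

theorem T_le (h : Cut χ K) {ε : ℝ} (hε : 0 < ε) (i : Fin 3) (z : V) :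
    |T χ ε i z| ≤ 10 * K := by
  have hK := h.Kpos
  by_cases h1 : ‖z‖ < 1 / 2
  · rw [T, h.one1 i z h1, h.one2 i z h1]
    simp only [zero_mul, mul_zero, add_zero, abs_zero]
    positivity
  · push Not at h1
    have h2 : 0 < ‖z‖ := by linarith
    have hz : z ≠ 0 := norm_pos_iff.1 h2
    have hP := P_le hε z hz
    have hP0 := (P_pos hε z).le
    have hE := E_le hε i z hz
    have b1 : ‖z‖⁻¹ ≤ 2 := by
      rw [inv_le_comm₀ h2 (by norm_num)]
      linarith
    have b2 : (‖z‖ ^ 2)⁻¹ ≤ 4 := by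
      rw [inv_le_comm₀ (by positivity) (by norm_num)]
      nlinarith
    calc |T χ ε i z| ≤ |pd i (pd i χ) z * P ε z| + |2 * (pd i χ z * E ε i z)| := abs_add_le _ _
      _ = |pd i (pd i χ) z| * P ε z + 2 * (|pd i χ z| * |E ε i z|) := by
          rw [abs_mul, abs_mul, abs_mul, abs_of_nonneg hP0, abs_of_nonneg (by norm_num : (0:ℝ) ≤ 2)]
      _ ≤ K * 2 + 2 * (K * 4) := by
          have a1 : |pd i (pd i χ) z| * P ε z ≤ K * 2 :=
            mul_le_mul (h.bd2 i z) (hP.trans b1) hP0 hK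
          have a2 : |pd i χ z| * |E ε i z| ≤ K * 4 :=
            mul_le_mul (h.bd1 i z) (hE.trans b2) (abs_nonneg _) hK
          linarith
      _ = 10 * K := by ring

theorem int_norm : IntegrableOn (fun z : V => (‖z‖ ^ 2)⁻¹) (closedBall 0 1) := by
  have h1 : IntegrableOn (fun z : V => (fun r : ℝ => (r ^ 2)⁻¹) ‖z‖) (ball (0 : V) 2) := by
    refine (integrableOn_fun_norm_addHaar (volume : Measure V) (f := fun r : ℝ => (r ^ 2)⁻¹)
      (r := 2)).2 ?_
    have h2 : IntegrableOn (fun _ : ℝ => (1 : ℝ)) (Ioo 0 2) := by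
      rw [integrableOn_const_iff]
      right
      simp
    refine h2.congr_fun ?_ measurableSet_Ioo
    intro y hy
    have h3 : Module.finrank ℝ V - 1 = 2 := by simp
    rw [h3]
    have : y ≠ 0 := hy.1.ne'
    simp only [smul_eq_mul]
    field_simp
  exact h1.mono_set (closedBall_subset_ball (by norm_num))

theorem int_pot {g : V → ℝ} (hg : Continuous g) :
    IntegrableOn (fun z : V => |g z| / ‖z‖ ^ 2) (closedBall 0 1) := by
  have h1 : IntegrableOn (fun z : V => |g z| * (‖z‖ ^ 2)⁻¹) (closedBall 0 1) :=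
    int_norm.continuousOn_mul hg.abs.continuousOn (isCompact_closedBall 0 1)
  exact h1

theorem int_gA (h : Cut χ K) {ε : ℝ} (hε : 0 < ε) (i : Fin 3) {g : V → ℝ} (hg : Continuous g) :
    |∫ z, g z * A χ ε i z| ≤ (K + 1) * ∫ z in closedBall (0 : V) 1, |g z| / ‖z‖ ^ 2 := by
  have h1 : |∫ z, g z * A χ ε i z| ≤ ∫ z, |g z * A χ ε i z| := abs_integral_le_integral_abs
  refine h1.trans ?_
  rw [← integral_indicator measurableSet_closedBall, ← integral_const_mul]
  refine integral_mono_of_nonneg (ae_of_all _ fun z => abs_nonneg _) ?_ ?_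
  · exact (integrable_indicator_iff measurableSet_closedBall |>.2 (int_pot hg)).const_mul _
  · have h0 : ∀ᵐ z : V, z ≠ 0 := by
      simp [ae_iff]
    filter_upwards [h0] with z hz
    by_cases h2 : z ∈ closedBall (0 : V) 1
    · rw [indicator_of_mem h2, abs_mul]
      have h3 := A_le h hε i z hz
      have h4 := abs_nonneg (g z)
      calc |g z| * |A χ ε i z| ≤ |g z| * ((K + 1) * (‖z‖ ^ 2)⁻¹) := by gcongr
        _ = (K + 1) * (|g z| / ‖z‖ ^ 2) := by ring
    · rw [indicator_of_notMem h2]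
      rw [mem_closedBall, dist_zero_right, not_le] at h2
      rw [A_zero h ε i z h2, mul_zero, abs_zero, mul_zero]

theorem int_wT (h : Cut χ K) {ε : ℝ} (hε : 0 < ε) (i : Fin 3) {w : V → ℝ} (hw : Continuous w) :
    |∫ z, w z * T χ ε i z| ≤ 10 * K * ∫ z in closedBall (0 : V) 1, |w z| := by
  have h1 : |∫ z, w z * T χ ε i z| ≤ ∫ z, |w z * T χ ε i z| := abs_integral_le_integral_abs
  refine h1.trans ?_
  rw [← integral_indicator measurableSet_closedBall, ← integral_const_mul]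
  refine integral_mono_of_nonneg (ae_of_all _ fun z => abs_nonneg _) ?_ ?_
  · refine (integrable_indicator_iff measurableSet_closedBall |>.2 ?_).const_mul _
    exact hw.abs.continuousOn.integrableOn_compact (isCompact_closedBall 0 1)
  · refine ae_of_all _ fun z => ?_
    by_cases h2 : z ∈ closedBall (0 : V) 1
    · simp only [indicator_of_mem h2, abs_mul]
      have h3 := T_le h hε i z
      have h4 := abs_nonneg (w z)
      calc |w z| * |T χ ε i z| ≤ |w z| * (10 * K) := by gcongr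
        _ = 10 * K * |w z| := by ring
    · simp only [indicator_of_notMem h2]
      rw [mem_closedBall, dist_zero_right, not_le] at h2
      rw [T_zero h ε i z h2, mul_zero, abs_zero, mul_zero]

/-- scaling of the kernel `D` -/
theorem D_scale {ε : ℝ} (hε : 0 < ε) (z : V) : D ε (ε • z) = (ε ^ 3)⁻¹ * D 1 z := by
  have h1 : s ε (ε • z) = ε * s 1 z := by
    rw [s, nn_smul, s, show ε ^ 2 * nn z + ε ^ 2 = ε ^ 2 * (nn z + 1 ^ 2) by ring,
      Real.sqrt_mul (by positivity), Real.sqrt_sq hε.le]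
  have h2 : s 1 z ≠ 0 := (s_pos one_pos z).ne'
  rw [D, D, P, P, h1]
  field_simp

theorem D_pos {ε : ℝ} (hε : 0 < ε) (z : V) : 0 < D ε z := by
  have := P_pos hε z
  rw [D]
  positivity

theorem D_smooth {ε : ℝ} (hε : 0 < ε) : ContDiff ℝ ∞ (D ε) :=
  contDiff_const.mul ((smoothP hε).pow 5)

theorem D_int : Integrable (D 1) := by
  have h1 : Integrable (fun x : V => ((1 : ℝ) + ‖x‖ ^ 2) ^ (-(5 : ℝ) / 2)) :=
    integrable_rpow_neg_one_add_norm_sq (by simp; norm_num)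
  refine (h1.const_mul 3).mono' (D_smooth one_pos).continuous.aestronglyMeasurable ?_
  refine ae_of_all _ fun z => ?_
  rw [Real.norm_eq_abs, abs_of_pos (D_pos one_pos z), D]
  have h2 : (0 : ℝ) < 1 + ‖z‖ ^ 2 := by positivity
  have h3 : P 1 z ^ 5 ≤ ((1 : ℝ) + ‖z‖ ^ 2) ^ (-(5 : ℝ) / 2) := by
    have h4 : √(1 + ‖z‖ ^ 2) ≤ s 1 z := by
      rw [s]
      apply Real.sqrt_le_sqrt
      have := nn_ge z
      linarith
    have h5 : 0 < √(1 + ‖z‖ ^ 2) := Real.sqrt_pos.2 h2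
    have h6 : P 1 z ≤ (√(1 + ‖z‖ ^ 2))⁻¹ := inv_anti₀ h5 h4
    have h7 : ((1 : ℝ) + ‖z‖ ^ 2) ^ (-(5 : ℝ) / 2) = (√(1 + ‖z‖ ^ 2))⁻¹ ^ 5 := by
      rw [Real.sqrt_eq_rpow, ← Real.rpow_neg h2.le,
        ← Real.rpow_natCast (((1 : ℝ) + ‖z‖ ^ 2) ^ (-(1 / 2) : ℝ)) 5, ← Real.rpow_mul h2.le]
      norm_num
    rw [h7]
    exact pow_le_pow_left₀ (P_pos one_pos z).le h6 5
  linarith

theorem D_int_pos : 0 < ∫ z : V, D 1 z := by
  rw [integral_pos_iff_support_of_nonneg (fun z => (D_pos one_pos z).le) D_int]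
  have h1 : Function.support (D 1) = univ := by
    ext z
    simp [(D_pos one_pos z).ne']
  rw [h1]
  simp

/-- the limit of the left side -/
theorem lim_D (h : Cut χ K) {w : V → ℝ} (hw : Continuous w) :
    Tendsto (fun n : ℕ => ∫ z, w z * (χ z * D (1 / ((n : ℝ) + 1)) z)) atTop
      (𝓝 (w 0 * ∫ z : V, D 1 z)) := by
  have h1 : ∀ n : ℕ, ∫ z, w z * (χ z * D (1 / ((n : ℝ) + 1)) z) =
      ∫ z, (w ((1 / ((n : ℝ) + 1)) • z) * χ ((1 / ((n : ℝ) + 1)) • z)) * D 1 z := by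
    intro n
    set ε : ℝ := 1 / ((n : ℝ) + 1) with hε'
    have hε : 0 < ε := by positivity
    have h2 := Measure.integral_comp_smul (volume : Measure V)
      (fun z => w z * (χ z * D ε z)) ε
    have h3 : Module.finrank ℝ V = 3 := by simp
    rw [h3, abs_of_pos (by positivity), smul_eq_mul] at h2
    have h4 : (fun z : V => w (ε • z) * (χ (ε • z) * D ε (ε • z))) =
        fun z => (ε ^ 3)⁻¹ * ((w (ε • z) * χ (ε • z)) * D 1 z) := by
      funext z
      rw [D_scale hε]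
      ring
    rw [h4, integral_const_mul] at h2
    have h5 : (ε ^ 3)⁻¹ ≠ 0 := by positivity
    exact (mul_left_cancel₀ h5 h2).symm
  simp only [h1]
  have hcont : Continuous fun z => w z * χ z := hw.mul h.smooth.continuous
  obtain ⟨B, hB⟩ := hcont.bounded_above_of_compact_support h.cs.mul_left
  rw [← integral_const_mul]
  refine tendsto_integral_of_dominated_convergence (fun z => B * D 1 z) ?_ (D_int.const_mul B)
    ?_ ?_
  · intro n
    refine Continuous.aestronglyMeasurable ?_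
    exact (hcont.comp (continuous_const_smul _)).mul (D_smooth one_pos).continuous
  · intro n
    refine ae_of_all _ fun z => ?_
    rw [norm_mul, Real.norm_eq_abs (D 1 z), abs_of_pos (D_pos one_pos z)]
    exact mul_le_mul_of_nonneg_right (hB _) (D_pos one_pos z).le
  · refine ae_of_all _ fun z => ?_
    refine Tendsto.mul_const _ ?_
    have h2 : Tendsto (fun n : ℕ => (1 / ((n : ℝ) + 1)) • z) atTop (𝓝 0) := by
      have h3 := (tendsto_one_div_add_atTop_nhds_zero_nat (𝕜 := ℝ)).smul_const z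
      rwa [zero_smul] at h3
    have h4 := (hcont.tendsto 0).comp h2
    have h5 : w 0 * χ 0 = w 0 := by
      rw [h.one 0 (by rw [norm_zero]; norm_num), mul_one]
    rw [h5] at h4
    exact h4

theorem core (h : Cut χ K) {w : V → ℝ} (hw : ContDiff ℝ ∞ w)
    {g : Fin 3 → V → ℝ} (hg : ∀ i, ContDiff ℝ ∞ (g i))
    (hlap : ∀ z, lap w z = ∑ i, pd i (g i) z) :
    |w 0| * ∫ z : V, D 1 z ≤ (K + 1) * (∑ i, ∫ z in closedBall (0 : V) 1, |g i z| / ‖z‖ ^ 2) +
      30 * K * ∫ z in closedBall (0 : V) 1, |w z| := by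
  have h1 := (lim_D h hw.continuous).abs
  rw [abs_mul, abs_of_pos D_int_pos] at h1
  refine le_of_tendsto h1 (Eventually.of_forall fun n => ?_)
  have hε : (0 : ℝ) < 1 / ((n : ℝ) + 1) := by positivity
  rw [ident h hε hw hg hlap]
  refine (abs_add_le _ _).trans ?_
  have h2 : |∑ i, ∫ z, w z * T χ (1 / ((n : ℝ) + 1)) i z| ≤
      ∑ _i : Fin 3, 10 * K * ∫ z in closedBall (0 : V) 1, |w z| :=
    (Finset.abs_sum_le_sum_abs _ _).trans
      (Finset.sum_le_sum fun i _ => int_wT h hε i hw.continuous)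
  have h3 : |∑ i, ∫ z, g i z * A χ (1 / ((n : ℝ) + 1)) i z| ≤
      ∑ i, (K + 1) * ∫ z in closedBall (0 : V) 1, |g i z| / ‖z‖ ^ 2 :=
    (Finset.abs_sum_le_sum_abs _ _).trans
      (Finset.sum_le_sum fun i _ => int_gA h hε i (hg i).continuous)
  rw [← Finset.mul_sum] at h3
  rw [Finset.sum_const, Finset.card_univ, Fintype.card_fin, nsmul_eq_mul] at h2
  push_cast at h2
  linarith

end

end Pool.Agent.Q153.VD
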