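import Pool.Agent.Q153.VD.Core

/-!
# The potential estimate (project VD, job POT)
-/

set_option autoImplicit false

open MeasureTheory Set Metric Filter Topology
open scoped ContDiff Pointwise
open H459R3.NS

namespace Pool.Agent.Q153.VD

theorem smooth_aff {f : V → ℝ} (hf : ContDiff ℝ ∞ f) (x : V) (ρ : ℝ) :
    ContDiff ℝ ∞ (fun z : V => f (x + ρ • z)) :=
  hf.comp (contDiff_const.add (contDiff_const_smul ρ))

theorem pd_aff {f : V → ℝ} (hf : ContDiff ℝ ∞ f) (x : V) (ρ : ℝ) (j : Fin 3) :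
    pd j (fun z : V => f (x + ρ • z)) = fun z => ρ * pd j f (x + ρ • z) := by
  funext z
  have h1 : HasFDerivAt (fun z : V => x + ρ • z) (ρ • ContinuousLinearMap.id ℝ V) z := by
    have h2 : HasFDerivAt (fun z : V => ρ • z) (ρ • ContinuousLinearMap.id ℝ V) z :=
      (hasFDerivAt_id z).const_smul ρ
    exact h2.const_add x
  have h3 : HasFDerivAt (fun z : V => f (x + ρ • z))
      ((fderiv ℝ f (x + ρ • z)).comp (ρ • ContinuousLinearMap.id ℝ V)) z :=
    HasFDerivAt.comp z (diff_of hf (x + ρ • z)).hasFDerivAt h1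
  rw [pd, h3.fderiv]
  simp [pd]

theorem pd_const_mul {f : V → ℝ} (hf : ContDiff ℝ ∞ f) (c : ℝ) (j : Fin 3) (x : V) :
    pd j (fun z : V => c * f z) x = c * pd j f x := by
  rw [pd, fderiv_const_mul (diff_of hf x)]
  rfl

theorem lap_aff {f : V → ℝ} (hf : ContDiff ℝ ∞ f) (x : V) (ρ : ℝ) (z : V) :
    lap (fun z : V => f (x + ρ • z)) z = ρ ^ 2 * lap f (x + ρ • z) := by
  simp only [lap]
  rw [Finset.mul_sum]
  refine Finset.sum_congr rfl fun j _ => ?_
  rw [pd_aff hf x ρ j, pd_const_mul (smooth_aff (smooth_pd hf j) x ρ),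
    pd_aff (smooth_pd hf j) x ρ j]
  ring

theorem ball_smul {ρ : ℝ} (hρ : 0 < ρ) : ρ • closedBall (0 : V) 1 = closedBall (0 : V) ρ := by
  rw [smul_closedBall ρ (0 : V) zero_le_one, smul_zero, Real.norm_eq_abs, abs_of_pos hρ, mul_one]

theorem pot_scale {ρ : ℝ} (hρ : 0 < ρ) (g : V → ℝ) (x : V) :
    ∫ z in closedBall (0 : V) 1, |ρ * g (x + ρ • z)| / ‖z‖ ^ 2 = Pool.Agent.Q67.VD.pot ρ g x := by
  have h1 := Measure.setIntegral_comp_smul_of_pos (volume : Measure V)
    (fun z => |g (x + z)| / ‖z‖ ^ 2) (closedBall (0 : V) 1) hρ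
  have h3 : Module.finrank ℝ V = 3 := by simp
  rw [h3, ball_smul hρ, smul_eq_mul] at h1
  have h4 : Pool.Agent.Q67.VD.pot ρ g x =
      ρ ^ 3 * ∫ z in closedBall (0 : V) 1, |g (x + ρ • z)| / ‖ρ • z‖ ^ 2 := by
    rw [h1, Pool.Agent.Q67.VD.pot]
    field_simp
  rw [h4, ← integral_const_mul]
  refine setIntegral_congr_fun measurableSet_closedBall fun z _ => ?_
  rw [norm_smul, Real.norm_eq_abs, abs_mul, abs_of_pos hρ]
  by_cases hz : ‖z‖ = 0
  · rw [hz]; simp
  · field_simp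

theorem avg_scale {ρ : ℝ} (hρ : 0 < ρ) (f : V → ℝ) (x : V) :
    ∫ z in closedBall (0 : V) 1, |f (x + ρ • z)| =
      (∫ z in closedBall (0 : V) ρ, |f (x + z)|) / ρ ^ 3 := by
  have h1 := Measure.setIntegral_comp_smul_of_pos (volume : Measure V)
    (fun z => |f (x + z)|) (closedBall (0 : V) 1) hρ
  have h3 : Module.finrank ℝ V = 3 := by simp
  rw [h3, ball_smul hρ, smul_eq_mul] at h1
  rw [h1]
  ring

theorem stmPot : Pool.Agent.Q67.VD.StmPot := by
  obtain ⟨χ, K, hχ⟩ := exists_cut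
  have hc := D_int_pos
  set c : ℝ := ∫ z : V, D 1 z with hcdef
  have hK := hχ.Kpos
  refine ⟨(31 * K + 1) / c, by positivity, ?_⟩
  intro ρ f G hρ _ hf hG hlap x
  have h1 := core hχ (w := fun z : V => f (x + ρ • z)) (smooth_aff hf.smooth x ρ)
    (g := fun i z => ρ * G i (x + ρ • z))
    (fun i => contDiff_const.mul (smooth_aff (hG i).smooth x ρ)) (by
      intro z
      rw [lap_aff hf.smooth, hlap, Finset.mul_sum]
      refine Finset.sum_congr rfl fun i _ => ?_
      rw [pd_const_mul (smooth_aff (hG i).smooth x ρ), pd_aff (hG i).smooth]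
      ring)
  simp only [smul_zero, add_zero, pot_scale hρ, avg_scale hρ] at h1
  have hS : 0 ≤ ∑ i, Pool.Agent.Q67.VD.pot ρ (G i) x :=
    Finset.sum_nonneg fun i _ => integral_nonneg fun z => by positivity
  have hT : 0 ≤ (∫ z in closedBall (0 : V) ρ, |f (x + z)|) / ρ ^ 3 :=
    div_nonneg (integral_nonneg fun z => abs_nonneg _) (by positivity)
  rw [div_mul_eq_mul_div, le_div_iff₀ hc]
  refine h1.trans ?_
  nlinarith [mul_nonneg hK hS, mul_nonneg hK hT]

end Pool.Agent.Q153.VD
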